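import Pool.Agent.MP_7c31d9_gt.Assembly
import Pool.Agent.MP_7c31d9_gt.GoodPotExists

/-!
# Negatively curved Kaehler metrics on complements of `2n+1` hyperplanes

`L 0, …, L (2n)` are linear forms on `ℂ^(n+1)` in general position (any `n+1` of them are linearly
independent), and `X` is the complement of the hyperplanes `H_i = {L i = 0}` in `ℙⁿ(ℂ)`. Since
`H_0` is removed, `X` lies in the affine space `ℙⁿ ∖ H_0 ≅ ℂⁿ`; an affine coordinate system on it
is `z ↦ [p + B z]` with `L 0 p = 1` and `B` a linear isomorphism of `ℂⁿ` onto `ker (L 0)`.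
-/

namespace Pool.Agent.Results.MP_7c31d9_gt.HyperplaneComplement

open Pool.Agent.MP_7c31d9_gt

/-- The complement of the hyperplanes `L i = 0` in projective space. -/
def X {n : ℕ} (L : Fin (2 * n + 1) → ((Fin (n + 1) → ℂ) →ₗ[ℂ] ℂ)) :
    Set (Projectivization ℂ (Fin (n + 1) → ℂ)) :=
  {x | ∀ i, L i x.rep ≠ 0}

/-- `z ↦ [p + B z]` is an affine coordinate system on the complement of `H_0`. -/
structure IsAffineChart {n : ℕ} (L : Fin (2 * n + 1) → ((Fin (n + 1) → ℂ) →ₗ[ℂ] ℂ))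
    (p : Fin (n + 1) → ℂ) (B : (Fin n → ℂ) →ₗ[ℂ] (Fin (n + 1) → ℂ)) : Prop where
  inj : Function.Injective B
  base : L 0 p = 1
  dir : ∀ z, L 0 (B z) = 0

theorem IsAffineChart.ne_zero {n : ℕ} {L : Fin (2 * n + 1) → ((Fin (n + 1) → ℂ) →ₗ[ℂ] ℂ)}
    {p : Fin (n + 1) → ℂ} {B : (Fin n → ℂ) →ₗ[ℂ] (Fin (n + 1) → ℂ)} (h : IsAffineChart L p B)
    (z : Fin n → ℂ) : p + B z ≠ 0 := by
  intro h0
  have h1 : L 0 (p + B z) = 1 := by rw [map_add, h.base, h.dir, add_zero]
  rw [h0, map_zero] at h1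
  exact zero_ne_one h1

/-- The domain of `ℂⁿ` corresponding to `X` in the affine coordinates `z ↦ [p + B z]`. -/
def U {n : ℕ} (L : Fin (2 * n + 1) → ((Fin (n + 1) → ℂ) →ₗ[ℂ] ℂ))
    (p : Fin (n + 1) → ℂ) (B : (Fin n → ℂ) →ₗ[ℂ] (Fin (n + 1) → ℂ)) : Set (Fin n → ℂ) :=
  {z | ∀ i, L i (p + B z) ≠ 0}

/-- **Main theorem.** For every `n ≥ 1` and every configuration of `2n+1` hyperplanes in general
position, the complement `X` carries a Kaehler metric with holomorphic sectional curvature `≤ -1`: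
affine coordinates `z ↦ [p + B z]` on `ℙⁿ ∖ H_0` exist, and in each of them `X` corresponds
bijectively to the open set `U L p B`, on which there is such a metric. -/
theorem result (n : ℕ) (hn : 1 ≤ n) (L : Fin (2 * n + 1) → ((Fin (n + 1) → ℂ) →ₗ[ℂ] ℂ))
    (hL : GeneralPosition L) :
    (∃ (p : Fin (n + 1) → ℂ) (B : (Fin n → ℂ) →ₗ[ℂ] (Fin (n + 1) → ℂ)), IsAffineChart L p B) ∧
    ∀ (p : Fin (n + 1) → ℂ) (B : (Fin n → ℂ) →ₗ[ℂ] (Fin (n + 1) → ℂ))
      (h : IsAffineChart L p B),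
      IsOpen (U L p B) ∧
      Set.BijOn (fun z => Projectivization.mk ℂ (p + B z) (h.ne_zero z)) (U L p B) (X L) ∧
      ∃ g : (Fin n → ℂ) → Matrix (Fin n) (Fin n) ℂ, IsKahlerOn (U L p B) g ∧
        ∀ z ∈ U L p B, ∀ v : Fin n → ℂ, v ≠ 0 → holoSec g z v ≤ -1 := by
  refine ⟨?_, fun p B h => ⟨?_, ?_, ?_⟩⟩
  · obtain ⟨p, B, h1, h2, h3⟩ := exists_chart L hL
    exact ⟨p, B, h1, h2, h3⟩
  · have : U L p B = ⋂ i, {z | L i (p + B z) ≠ 0} := by
      ext z; simp [U]
    rw [this]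
    refine isOpen_iInter_of_finite (fun i => ?_)
    have hc : Continuous (fun z => L i (p + B z)) :=
      (LinearMap.continuous_of_finiteDimensional (L i)).comp
        (continuous_const.add (LinearMap.continuous_of_finiteDimensional B))
    exact isOpen_ne.preimage hc
  · exact chart_bijOn L p B h.inj h.base h.dir h.ne_zero
  · exact kahler_of_goodPot hn (exists_goodPot n hn) L hL p B h.inj h.base h.dir

end Pool.Agent.Results.MP_7c31d9_gt.HyperplaneComplement
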